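import Pool.Agent.H59.SP.Final

/-!
# MP_115fe1_co: sublinear spanners with the Thorup-Zwick emulator parameters

For every `k ≥ 2` there is a constant `C` such that every graph `G` on `n` vertices has a spanner
`H` with at most `C n ^ (1 + 1 / (2 ^ (k + 1) - 1))` edges and
`d_H(u, v) ≤ d_G(u, v) + C d_G(u, v) ^ (1 - 1 / k)` for all vertices `u, v` of the same component.

Outline. Let `L = 2 ^ (k + 1) - 1`, `n ≤ Δ ^ L`, `v j = Δ ^ (2 ^ (j + 1) - 2)`. Vertices of large
degree are grouped into at most `n / Δ` clusters; the volume of a ball is its number of clusters.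
Level `i`: pairs at distance `m` whose ball of radius `3 m` has volume at most `v i` get error
`O(m ^ (1 - 1 / i))`, at a total cost of `O(n Δ)` edges (`PP`, `level_step`); level `k` is the theorem.
A scale of level `i + 1` has hubs (a Vitali family of balls of radius `~ m ^ (i / (i + 1))` and volume
more than `v i`) with weights. Dense geodesics are bought, each purchase improving quadratically many
pairs of hubs, which gains a factor `Γ`, a power of `m`, over the budget (`quad`); hubs are passed
with the help of randomly sampled hubs of the lower levels (`serv_step`); sparse geodesics are free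
(`sparse_run`). So the costs of the scales form a geometric series.
-/

namespace Pool.Agent.Results.MP_115fe1_co.SublinearSpanners

theorem result.{u} (k : ℕ) (hk : 2 ≤ k) :
    ∃ C : ℝ, ∀ (V : Type u) [Fintype V] (G : SimpleGraph V),
      ∃ H : SimpleGraph V, H ≤ G ∧
        (H.edgeSet.ncard : ℝ) ≤ C * (Fintype.card V : ℝ) ^ (1 + 1 / ((2 : ℝ) ^ (k + 1) - 1)) ∧
        ∀ u v : V, G.Reachable u v → H.Reachable u v ∧
          (H.dist u v : ℝ) ≤ G.dist u v + C * (G.dist u v : ℝ) ^ (1 - 1 / (k : ℝ)) := by
  obtain ⟨C, -, h⟩ := Pool.Agent.H59.SP.main_real.{u} k (by omega)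
  exact ⟨C, h⟩

end Pool.Agent.Results.MP_115fe1_co.SublinearSpanners
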